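import Pool.Agent.Y119.HG.Defs

/-!
# (INJ) injectivity of the bracket modulo lower triangular matrices
-/

set_option autoImplicit false

open Matrix

namespace Pool.Agent.Y366.HG

open Pool.Agent.Y119.HG

theorem t_INJ : T_INJ := by
  intro L _ m ε hε c b hc p hp h1 h2
  obtain ⟨X, Z⟩ := p
  obtain ⟨-, hX, hZ⟩ := hp
  simp only at hX hZ h1 h2
  have e1 : ∀ i j, ε * ∑ k, Z i k * c j k - ∑ k, c i k * Z k j = 0 := by
    intro i j
    have := h1 i j
    rw [Ysp, fromBlocks_multiply, fromBlocks_multiply, Matrix.sub_apply, fromBlocks_apply₁₂,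
      fromBlocks_apply₁₂, mul_zero, zero_mul, zero_add, add_zero, Matrix.mul_smul, Matrix.smul_apply,
      Matrix.mul_apply, Matrix.mul_apply, smul_eq_mul] at this
    exact this
  have hZ0 : ∀ N : ℕ, ∀ i j : Fin m, (i : ℕ) + j = N → Z i j = 0 := by
    intro N
    induction N using Nat.strong_induction_on with
    | _ N ih =>
      intro i j hij
      by_contra hne
      have s1 : ∑ k, Z i k * c j k = Z i j * c j j := by
        refine Finset.sum_eq_single j (fun k _ hk => ?_) (fun h => absurd (Finset.mem_univ _) h)
        rcases lt_or_gt_of_ne hk with h | h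
        · have h' : (k : ℕ) < j := h
          rw [ih ((i : ℕ) + k) (by omega) i k rfl, zero_mul]
        · rw [hc j k h, mul_zero]
      have s2 : ∑ k, c i k * Z k j = c i i * Z i j := by
        refine Finset.sum_eq_single i (fun k _ hk => ?_) (fun h => absurd (Finset.mem_univ _) h)
        rcases lt_or_gt_of_ne hk with h | h
        · have h' : (k : ℕ) < i := h
          rw [ih ((k : ℕ) + j) (by omega) k j rfl, mul_zero]
        · rw [hc i k h, zero_mul]
      have := e1 i j
      rw [s1, s2] at this
      have h3 : Z i j * (ε * c j j - c i i) = 0 := by linear_combination this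
      rcases mul_eq_zero.1 h3 with h | h
      · exact hne h
      · exact hZ i j hne (sub_eq_zero.1 h).symm
  have hZz : Z = 0 := by
    ext i j
    exact hZ0 _ i j rfl
  have e2 : ∀ i j, i < j → ∑ k, X i k * c k j - ∑ k, c i k * X k j = 0 := by
    intro i j hij
    have := h2 i j hij
    rw [Ysp, fromBlocks_multiply, fromBlocks_multiply, Matrix.sub_apply, fromBlocks_apply₁₁,
      fromBlocks_apply₁₁, hZz, zero_mul, mul_zero, add_zero, add_zero,
      Matrix.mul_apply, Matrix.mul_apply] at this
    exact this
  have hX0 : ∀ N : ℕ, ∀ i j : Fin m, i < j → (i : ℕ) + (m - j) = N → X i j = 0 := by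
    intro N
    induction N using Nat.strong_induction_on with
    | _ N ih =>
      intro i j hlt hij
      by_contra hne
      have hlt' : (i : ℕ) < j := hlt
      have s1 : ∑ k, X i k * c k j = X i j * c j j := by
        refine Finset.sum_eq_single j (fun k _ hk => ?_) (fun h => absurd (Finset.mem_univ _) h)
        rcases lt_or_gt_of_ne hk with h | h
        · rw [hc k j h, mul_zero]
        · have h' : (j : ℕ) < k := h
          have hkm := k.2
          rw [ih ((i : ℕ) + (m - k)) (by omega) i k (lt_trans hlt h) rfl, zero_mul]
      have s2 : ∑ k, c i k * X k j = c i i * X i j := by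
        refine Finset.sum_eq_single i (fun k _ hk => ?_) (fun h => absurd (Finset.mem_univ _) h)
        rcases lt_or_gt_of_ne hk with h | h
        · have h' : (k : ℕ) < i := h
          rw [ih ((k : ℕ) + (m - j)) (by omega) k j (lt_trans h hlt) rfl, mul_zero]
        · rw [hc i k h, zero_mul]
      have := e2 i j hlt
      rw [s1, s2] at this
      have h3 : X i j * (c j j - c i i) = 0 := by linear_combination this
      rcases mul_eq_zero.1 h3 with h | h
      · exact hne h
      · exact (hX i j hne).2 (sub_eq_zero.1 h).symm
  have hXz : X = 0 := by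
    ext i j
    by_contra hne
    have hne' : X i j ≠ 0 := hne
    exact hne (hX0 _ i j (hX i j hne').1 rfl)
  rw [hXz, hZz]
  rfl

end Pool.Agent.Y366.HG
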